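import Mathlib
import Pool.Agent.H805K.Main

/-!
# A measure with a continuous subsolution but without continuous solution

In the ball `Ω` of radius `3` of `ℂ³` there is a probability measure `μ`, absolutely continuous with
respect to Lebesgue measure, which is dominated by the Monge-Ampere measure of a continuous
plurisubharmonic function with zero boundary values, but which is not the Monge-Ampere measure of any
continuous plurisubharmonic function with zero boundary values. This answers Kolodziej's question on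
continuous subsolutions in the negative.

All notions entering the statement are defined in this file, over Mathlib alone.
-/

set_option autoImplicit false

open MeasureTheory Metric Set Filter Topology
open scoped ContDiff ComplexOrder

namespace Pool.Agent.Results.MP_529c98_an.NoContinuousSolution

/-- `ℂⁿ` with its Euclidean norm; `volume` on it is Lebesgue measure on `ℝ²ⁿ`. -/
abbrev Cn (n : ℕ) : Type := EuclideanSpace ℂ (Fin n)

/-- The `j`-th unit vector of `ℂⁿ`. -/
noncomputable def bas {n : ℕ} (j : Fin n) : Cn n := EuclideanSpace.single j (1 : ℂ)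

/-- The Wirtinger derivative `∂f/∂z_j = (∂f/∂x_j - i ∂f/∂y_j) / 2`. -/
noncomputable def wd {n : ℕ} (j : Fin n) (f : Cn n → ℂ) (z : Cn n) : ℂ :=
  (fderiv ℝ f z (bas j) - Complex.I * fderiv ℝ f z (Complex.I • bas j)) / 2

/-- The Wirtinger derivative `∂f/∂z̄_k = (∂f/∂x_k + i ∂f/∂y_k) / 2`. -/
noncomputable def wdb {n : ℕ} (k : Fin n) (f : Cn n → ℂ) (z : Cn n) : ℂ :=
  (fderiv ℝ f z (bas k) + Complex.I * fderiv ℝ f z (Complex.I • bas k)) / 2

/-- The complex Hessian `(∂²u/∂z_j∂z̄_k)` of a real function. -/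
noncomputable def hess {n : ℕ} (u : Cn n → ℝ) (z : Cn n) : Matrix (Fin n) (Fin n) ℂ :=
  Matrix.of fun j k => wd j (wdb k fun w => (u w : ℂ)) z

/-- Plurisubharmonic functions on an open set `Ω` of `ℂⁿ`, with values in `[-∞, ∞)`: upper
semicontinuous, and for every closed complex disc `{a + ζ b : |ζ| ≤ 1} ⊆ Ω` the value at the centre
`a` is at most the mean over the boundary circle. The mean of an upper semicontinuous function is
the infimum of the means of its continuous majorants, which is how it is expressed here. -/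
def PSH {n : ℕ} (Ω : Set (Cn n)) (u : Cn n → EReal) : Prop :=
  UpperSemicontinuousOn u Ω ∧ (∀ z ∈ Ω, u z < ⊤) ∧
  ∀ a b : Cn n, (∀ ζ : ℂ, ‖ζ‖ ≤ 1 → a + ζ • b ∈ Ω) →
    ∀ φ : ℂ → ℝ, Continuous φ →
      (∀ ζ : ℂ, ‖ζ‖ = 1 → u (a + ζ • b) ≤ ((φ ζ : ℝ) : EReal)) →
        u a ≤ ((Real.circleAverage φ 0 1 : ℝ) : EReal)

/-- `Ω` is hyperconvex: there is a negative plurisubharmonic function `ρ` on `Ω` such that every
sublevel set `{ρ < c}`, `c < 0`, is relatively compact in `Ω`. -/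
def Hyperconvex {n : ℕ} (Ω : Set (Cn n)) : Prop :=
  ∃ ρ : Cn n → EReal, PSH Ω ρ ∧ (∀ z ∈ Ω, ρ z < 0) ∧
    ∀ c : ℝ, c < 0 → ∃ K : Set (Cn n), IsCompact K ∧ K ⊆ Ω ∧ ∀ z ∈ Ω, ρ z < (c : EReal) → z ∈ K

/-- The density of `(dd^c v)ⁿ` with respect to Lebesgue measure for a `C²` function `v`, where
`dd^c = (i/π)∂∂̄`: it is `n! (2/π)ⁿ det(∂²v/∂z_j∂z̄_k)`. -/
noncomputable def maDensity {n : ℕ} (v : Cn n → ℝ) (z : Cn n) : ℝ :=
  (n.factorial : ℝ) * (2 / Real.pi) ^ n * (hess v z).det.re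

/-- `μ` is, on `Ω`, the Monge-Ampere measure `(dd^c u)ⁿ` of the locally bounded plurisubharmonic
function `u` in the sense of Bedford and Taylor: it is finite on compact subsets of `Ω`, and on every
open `U` relatively compact in `Ω` the function `u` is the pointwise limit of a decreasing sequence of
smooth plurisubharmonic functions `v_k` whose Monge-Ampere measures `maDensity (v_k) dVol` converge
weakly to `μ` on `U`. -/
def IsMongeAmpere {n : ℕ} (Ω : Set (Cn n)) (u : Cn n → ℝ) (μ : Measure (Cn n)) : Prop :=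
  (∀ K : Set (Cn n), IsCompact K → K ⊆ Ω → μ K < ⊤) ∧
  ∀ U : Set (Cn n), IsOpen U → IsCompact (closure U) → closure U ⊆ Ω →
    ∃ v : ℕ → Cn n → ℝ,
      (∀ k, ContDiffOn ℝ ∞ (v k) U) ∧
      (∀ k, ∀ z ∈ U, (hess (v k) z).PosSemidef) ∧
      (∀ z ∈ U, Antitone fun k => v k z) ∧
      (∀ z ∈ U, Tendsto (fun k => v k z) atTop (𝓝 (u z))) ∧
      ∀ χ : Cn n → ℝ, Continuous χ → HasCompactSupport χ → tsupport χ ⊆ U →
        Tendsto (fun k => ∫ z, χ z * maDensity (v k) z) atTop (𝓝 (∫ z, χ z ∂μ))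

/-- `u` is a continuous plurisubharmonic function on `Ω` with zero boundary values
(`u(z) → 0` as `z → ∂Ω`), and `(dd^c u)ⁿ = μ` on `Ω`. -/
def IsContinuousSolution {n : ℕ} (Ω : Set (Cn n)) (u : Cn n → ℝ) (μ : Measure (Cn n)) : Prop :=
  ContinuousOn u Ω ∧ PSH Ω (fun z => ((u z : ℝ) : EReal)) ∧
  (∀ w ∈ frontier Ω, Tendsto u (𝓝[Ω] w) (𝓝 0)) ∧ IsMongeAmpere Ω u μ

/-- `u` is a continuous subsolution for `μ`: it is a continuous plurisubharmonic function on `Ω` with
zero boundary values and `μ ≤ (dd^c u)ⁿ` on `Ω`. -/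
def IsContinuousSubsolution {n : ℕ} (Ω : Set (Cn n)) (u : Cn n → ℝ) (μ : Measure (Cn n)) : Prop :=
  ∃ ν : Measure (Cn n), IsContinuousSolution Ω u ν ∧ ∀ E, MeasurableSet E → E ⊆ Ω → μ E ≤ ν E

/-- Sanity check of the definitions: on the unit ball of `ℂⁿ`, the function `|z|² - 1` is a
continuous solution for the measure `n! (2/π)ⁿ dVol`. -/
theorem definitions_check {n : ℕ} :
    IsContinuousSolution (ball (0 : Cn n) 1) (fun z => ‖z‖ ^ 2 - 1)
      (ENNReal.ofReal ((n.factorial : ℝ) * (2 / Real.pi) ^ n) • volume) := by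
  refine ⟨?_, Pool.Agent.H805R2.nsq_psh _, ?_, Pool.Agent.H805R2.nsq_ma⟩
  · exact (Pool.Agent.H805R2.nsq_smooth (n := n)).continuous.continuousOn
  · intro w hw
    have h1 : ‖w‖ = 1 := by
      have := frontier_ball_subset_sphere hw
      simpa using this
    have h2 : Tendsto (fun z : Cn n => ‖z‖ ^ 2 - 1) (𝓝 w) (𝓝 (‖w‖ ^ 2 - 1)) :=
      (Pool.Agent.H805R2.nsq_smooth (n := n)).continuous.tendsto w
    rw [h1, one_pow, sub_self] at h2
    exact h2.mono_left nhdsWithin_le_nhds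

/-- **Q1, answered in the negative.** The ball `Ω` of radius `3` in `ℂ³` is a bounded hyperconvex
domain, and it carries a probability measure `μ` (absolutely continuous with respect to Lebesgue
measure) which has a continuous subsolution but no continuous solution. -/
theorem result : ∃ (Ω : Set (Cn 3)) (μ : Measure (Cn 3)), Ω = ball (0 : Cn 3) 3 ∧
    IsOpen Ω ∧ IsConnected Ω ∧ Bornology.IsBounded Ω ∧ Hyperconvex Ω ∧
    μ Ω = 1 ∧ μ Ωᶜ = 0 ∧ μ ≪ volume ∧
    (∃ u : Cn 3 → ℝ, IsContinuousSubsolution Ω u μ) ∧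
    ¬ ∃ φ : Cn 3 → ℝ, IsContinuousSolution Ω φ μ := by
  obtain ⟨μ, h1, h2, h3, ⟨u, ν, h4, h5, h6, h7, h8⟩, h9⟩ := Pool.Agent.H805K.main
  refine ⟨ball (0 : Cn 3) 3, μ, rfl, isOpen_ball,
    (convex_ball (0 : Cn 3) 3).isConnected ⟨0, mem_ball_self (by norm_num)⟩, isBounded_ball,
    Pool.Agent.H805K.ball3_hyperconvex, h1, h2, h3, ⟨u, ν, ⟨h4, h5, h6, h7⟩, h8⟩, ?_⟩
  rintro ⟨φ, hφ1, _, hφ3, hφ4⟩
  exact h9 ⟨φ, hφ1, hφ3, hφ4⟩

end Pool.Agent.Results.MP_529c98_an.NoContinuousSolution
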